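import Pool.Agent.helper47.SC.Spec

/-!
Row LTS of the project SC (MP_0015b7): local version of `contDiff_tsum`.
-/

open scoped Topology ContDiff
open Set Filter Metric MeasureTheory

namespace Pool.Agent.SC

/-- local uniform bounds of the derivatives of all orders -/
structure LTS_Good (𝕜 : Type) [RCLike 𝕜] {E F : Type} [NormedAddCommGroup E] [NormedSpace 𝕜 E]
    [NormedAddCommGroup F] [NormedSpace 𝕜 F] (f : ℕ → E → F) (O : Set E) : Prop where
  op : IsOpen O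
  sm : ∀ i, ContDiffOn 𝕜 ∞ (f i) O
  bd : ∀ p ∈ O, ∃ W ∈ 𝓝 p, ∀ n : ℕ, ∃ (v : ℕ → ℝ) (i₀ : ℕ), Summable v ∧ ∀ i, i₀ ≤ i → ∀ q ∈ W,
    ‖iteratedFDeriv 𝕜 n (f i) q‖ ≤ v i

section

variable {𝕜 : Type} [RCLike 𝕜] {E F : Type} [NormedAddCommGroup E] [NormedSpace 𝕜 E]
  [NormedAddCommGroup F] [NormedSpace 𝕜 F] {f : ℕ → E → F} {O : Set E}

theorem LTS_summable [CompleteSpace F] (h : LTS_Good 𝕜 f O) {x : E} (hx : x ∈ O) :
    Summable fun i => f i x := by
  obtain ⟨W, hW, hb⟩ := h.bd x hx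
  obtain ⟨v, i₀, hv, hvb⟩ := hb 0
  refine Summable.of_norm_bounded_eventually_nat hv ?_
  filter_upwards [eventually_ge_atTop i₀] with i hi
  have h1 := hvb i hi x (mem_of_mem_nhds hW)
  rwa [norm_iteratedFDeriv_zero] at h1

theorem LTS_fderiv (h : LTS_Good 𝕜 f O) : LTS_Good 𝕜 (fun i => fderiv 𝕜 (f i)) O := by
  refine ⟨h.op, fun i => (h.sm i).fderiv_of_isOpen h.op (by simp), fun p hp => ?_⟩
  obtain ⟨W, hW, hb⟩ := h.bd p hp
  refine ⟨W, hW, fun n => ?_⟩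
  obtain ⟨v, i₀, hv, hvb⟩ := hb (n + 1)
  refine ⟨v, i₀, hv, fun i hi q hq => ?_⟩
  rw [norm_iteratedFDeriv_fderiv]
  exact hvb i hi q hq

theorem LTS_hasFDerivAt [CompleteSpace F] (h : LTS_Good 𝕜 f O) {x : E} (hx : x ∈ O) :
    HasFDerivAt (fun y => ∑' i, f i y) (∑' i, fderiv 𝕜 (f i) x) x := by
  letI : NormedSpace ℝ E := NormedSpace.restrictScalars ℝ 𝕜 E
  obtain ⟨W, hW, hb⟩ := h.bd x hx
  obtain ⟨v, i₀, hv, hvb⟩ := hb 1
  obtain ⟨r, hr, hball⟩ := Metric.mem_nhds_iff.1 (inter_mem hW (h.op.mem_nhds hx))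
  have hd : ∀ i, ∀ y ∈ ball x r, HasFDerivAt (f i) (fderiv 𝕜 (f i) y) y := fun i y hy =>
    (((h.sm i).differentiableOn (by simp)).differentiableAt
      (h.op.mem_nhds (hball hy).2)).hasFDerivAt
  have hx' : x ∈ ball x r := mem_ball_self hr
  have htail : HasFDerivAt (fun y => ∑' i, f (i + i₀) y) (∑' i, fderiv 𝕜 (f (i + i₀)) x) x := by
    refine hasFDerivAt_tsum_of_isPreconnected (u := fun i => v (i + i₀))
      ((summable_nat_add_iff i₀).2 hv) isOpen_ball (convex_ball x r).isPreconnected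
      (fun i y hy => hd (i + i₀) y hy) (fun i y hy => ?_) hx'
      ((summable_nat_add_iff i₀).2 (LTS_summable h hx)) hx'
    have h1 := hvb (i + i₀) (Nat.le_add_left _ _) y (hball hy).1
    rwa [norm_iteratedFDeriv_one] at h1
  have hhead : HasFDerivAt (fun y => ∑ i ∈ Finset.range i₀, f i y)
      (∑ i ∈ Finset.range i₀, fderiv 𝕜 (f i) x) x :=
    HasFDerivAt.fun_sum fun i _ => hd i x hx'
  have hsum := hhead.add htail
  rw [(LTS_summable (LTS_fderiv h) hx).sum_add_tsum_nat_add i₀] at hsum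
  refine hsum.congr_of_eventuallyEq ?_
  filter_upwards [h.op.mem_nhds hx] with y hy
  exact ((LTS_summable h hy).sum_add_tsum_nat_add i₀).symm

end

theorem LTS_contDiffOn (n : ℕ) : ∀ (𝕜 : Type) [RCLike 𝕜] (E F : Type) [NormedAddCommGroup E]
    [NormedSpace 𝕜 E] [NormedAddCommGroup F] [NormedSpace 𝕜 F] [CompleteSpace F]
    (f : ℕ → E → F) (O : Set E), LTS_Good 𝕜 f O → ContDiffOn 𝕜 n (fun x => ∑' i, f i x) O := by
  induction n with
  | zero =>
    intro 𝕜 _ E F _ _ _ _ _ f O h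
    simp only [Nat.cast_zero, contDiffOn_zero]
    exact fun x hx => (LTS_hasFDerivAt h hx).continuousAt.continuousWithinAt
  | succ n ih =>
    intro 𝕜 _ E F _ _ _ _ _ f O h
    rw [Nat.cast_succ, contDiffOn_succ_iff_fderiv_of_isOpen h.op]
    refine ⟨fun x hx => (LTS_hasFDerivAt h hx).differentiableAt.differentiableWithinAt,
      by simp, ?_⟩
    refine (ih 𝕜 E (E →L[𝕜] F) (fun i => fderiv 𝕜 (f i)) O (LTS_fderiv h)).congr fun x hx => ?_
    exact (LTS_hasFDerivAt h hx).fderiv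

theorem LTS : LTS_stmt := by
  intro 𝕜 _ E F _ _ _ _ _ f O hO hf hb
  have h : LTS_Good 𝕜 f O := ⟨hO, hf, hb⟩
  have h1 := LTS_fderiv h
  have h2 := LTS_fderiv h1
  refine ⟨contDiffOn_infty.2 fun n => LTS_contDiffOn n 𝕜 E F f O h,
    fun x hx => LTS_summable h hx,
    fun x hx => ⟨LTS_summable h1 hx, (LTS_hasFDerivAt h hx).fderiv⟩,
    fun x hx => ⟨LTS_summable h2 hx, ?_⟩⟩
  have heq : fderiv 𝕜 (fun x => ∑' i, f i x) =ᶠ[𝓝 x] fun y => ∑' i, fderiv 𝕜 (f i) y := by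
    filter_upwards [hO.mem_nhds hx] with y hy
    exact (LTS_hasFDerivAt h hy).fderiv
  rw [heq.fderiv_eq]
  exact (LTS_hasFDerivAt h1 hx).fderiv

end Pool.Agent.SC
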