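import Pool.Agent.helper83.SC.Stmt

/-!
Module sc:FS of project MP_d2d7b9_gt : flat directions form a subspace.
-/

open scoped Pointwise ContDiff
open MeasureTheory Set Filter Topology

namespace Pool.Agent.helper83.SC

/-- second difference -/
def FS_q {m : ℕ} (f : E m → ℝ) (y v : E m) : ℝ := f (y + v) + f (y - v) - 2 * f y

theorem FS_flat_iff {m : ℕ} (f : E m → ℝ) (y v : E m) :
    FlatAt f y v ↔ ∃ ε > (0 : ℝ), FS_q f y (ε • v) = 0 := by
  unfold FlatAt FS_q
  constructor
  · rintro ⟨ε, h1, h2⟩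
    exact ⟨ε, h1, by linarith⟩
  · rintro ⟨ε, h1, h2⟩
    exact ⟨ε, h1, by linarith⟩

theorem FS_q_zero {m : ℕ} (f : E m → ℝ) (y : E m) : FS_q f y 0 = 0 := by
  unfold FS_q
  rw [add_zero, sub_zero]
  ring

theorem FS_q_neg {m : ℕ} (f : E m → ℝ) (y v : E m) : FS_q f y (-v) = FS_q f y v := by
  unfold FS_q
  rw [← sub_eq_add_neg, sub_neg_eq_add]
  ring

theorem FS_q_convex {m : ℕ} {f : E m → ℝ} (hf : CV f) (y v w : E m) {a b : ℝ} (ha : 0 ≤ a)
    (hb : 0 ≤ b) (hab : a + b = 1) :
    FS_q f y (a • v + b • w) ≤ a * FS_q f y v + b * FS_q f y w := by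
  have h1 := hf.2 (mem_univ (y + v)) (mem_univ (y + w)) ha hb hab
  have h2 := hf.2 (mem_univ (y - v)) (mem_univ (y - w)) ha hb hab
  have e1 : a • (y + v) + b • (y + w) = y + (a • v + b • w) := by
    have : y = (a + b) • y := by rw [hab, one_smul]
    conv_rhs => rw [this]
    module
  have e2 : a • (y - v) + b • (y - w) = y - (a • v + b • w) := by
    have : y = (a + b) • y := by rw [hab, one_smul]
    conv_rhs => rw [this]
    module
  rw [e1] at h1
  rw [e2] at h2
  simp only [smul_eq_mul] at h1 h2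
  unfold FS_q
  have : 2 * f y = (a + b) * (2 * f y) := by rw [hab, one_mul]
  nlinarith

theorem FS_q_nonneg {m : ℕ} {f : E m → ℝ} (hf : CV f) (y v : E m) : 0 ≤ FS_q f y v := by
  have h := FS_q_convex hf y v (-v) (a := 1 / 2) (b := 1 / 2) (by norm_num) (by norm_num)
    (by norm_num)
  have e : (1 / 2 : ℝ) • v + (1 / 2 : ℝ) • (-v) = 0 := by module
  rw [e, FS_q_zero, FS_q_neg] at h
  linarith

theorem FS_q_shrink {m : ℕ} {f : E m → ℝ} (hf : CV f) (y v : E m) (h : FS_q f y v = 0) {t : ℝ}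
    (h0 : 0 ≤ t) (h1 : t ≤ 1) : FS_q f y (t • v) = 0 := by
  have h2 := FS_q_convex hf y v 0 (a := t) (b := 1 - t) h0 (by linarith) (by ring)
  rw [smul_zero, add_zero, FS_q_zero, h] at h2
  have h3 := FS_q_nonneg hf y (t • v)
  linarith

theorem FS_q_shrink' {m : ℕ} {f : E m → ℝ} (hf : CV f) (y v : E m) {ε δ : ℝ} (hδ : 0 < δ)
    (hδε : δ ≤ ε) (h : FS_q f y (ε • v) = 0) : FS_q f y (δ • v) = 0 := by
  have hε : 0 < ε := lt_of_lt_of_le hδ hδε
  have h1 := FS_q_shrink hf y (ε • v) h (t := δ / ε) (by positivity)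
    ((div_le_one hε).mpr hδε)
  rw [smul_smul, div_mul_cancel₀ _ hε.ne'] at h1
  exact h1

theorem flat_submodule_of : flat_submodule_stmt := by
  intro m f hf y
  refine ⟨{ carrier := {v | FlatAt f y v}
            add_mem' := ?_
            zero_mem' := ?_
            smul_mem' := ?_ }, fun v => Iff.rfl⟩
  · intro v w hv hw
    rw [mem_ofPred_eq, FS_flat_iff] at hv hw ⊢
    obtain ⟨ε, h1, h2⟩ := hv
    obtain ⟨δ, h3, h4⟩ := hw
    have hm : 0 < min ε δ := lt_min h1 h3
    have h5 := FS_q_shrink' hf y v hm (min_le_left _ _) h2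
    have h6 := FS_q_shrink' hf y w hm (min_le_right _ _) h4
    refine ⟨min ε δ / 2, by positivity, ?_⟩
    have h7 := FS_q_convex hf y (min ε δ • v) (min ε δ • w) (a := 1 / 2) (b := 1 / 2)
      (by norm_num) (by norm_num) (by norm_num)
    have e : (1 / 2 : ℝ) • (min ε δ • v) + (1 / 2 : ℝ) • (min ε δ • w)
        = (min ε δ / 2) • (v + w) := by module
    rw [e, h5, h6] at h7
    have h8 := FS_q_nonneg hf y ((min ε δ / 2) • (v + w))
    linarith
  · rw [mem_ofPred_eq, FS_flat_iff]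
    exact ⟨1, one_pos, by rw [smul_zero, FS_q_zero]⟩
  · intro c v hv
    rw [mem_ofPred_eq, FS_flat_iff] at hv ⊢
    obtain ⟨ε, h1, h2⟩ := hv
    rcases lt_trichotomy c 0 with hc | hc | hc
    · refine ⟨ε / (-c), div_pos h1 (by linarith), ?_⟩
      have e : (ε / (-c)) • (c • v) = -(ε • v) := by
        rw [smul_smul, ← neg_smul]
        congr 1
        have hc' : c ≠ 0 := hc.ne
        field_simp
      rw [e, FS_q_neg, h2]
    · refine ⟨1, one_pos, ?_⟩
      rw [hc, zero_smul, smul_zero, FS_q_zero]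
    · refine ⟨ε / c, div_pos h1 hc, ?_⟩
      rw [smul_smul, div_mul_cancel₀ _ hc.ne', h2]

theorem flat_add_of : flat_add_stmt := by
  intro m f g hf hg y v
  rw [FS_flat_iff, FS_flat_iff, FS_flat_iff]
  have hq : ∀ w, FS_q (fun x => f x + g x) y w = FS_q f y w + FS_q g y w := by
    intro w
    unfold FS_q
    ring
  constructor
  · rintro ⟨ε, h1, h2⟩
    rw [hq] at h2
    have h3 := FS_q_nonneg hf y (ε • v)
    have h4 := FS_q_nonneg hg y (ε • v)
    exact ⟨⟨ε, h1, by linarith⟩, ⟨ε, h1, by linarith⟩⟩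
  · rintro ⟨⟨ε, h1, h2⟩, ⟨δ, h3, h4⟩⟩
    have hm : 0 < min ε δ := lt_min h1 h3
    refine ⟨min ε δ, hm, ?_⟩
    rw [hq, FS_q_shrink' hf y v hm (min_le_left _ _) h2,
      FS_q_shrink' hg y v hm (min_le_right _ _) h4, add_zero]

theorem FS_CV_sum {m : ℕ} {ι : Type} (s : Finset ι) {F : ι → E m → ℝ} (hF : ∀ i, CV (F i)) :
    CV (fun x => ∑ i ∈ s, F i x) := by
  classical
  induction s using Finset.induction_on with
  | empty =>
    simp only [Finset.sum_empty]
    exact convexOn_const 0 convex_univ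
  | insert a s ha ih =>
    have : (fun x => ∑ i ∈ insert a s, F i x) = (fun x => F a x) + fun x => ∑ i ∈ s, F i x := by
      funext x
      rw [Finset.sum_insert ha]
      rfl
    rw [this]
    exact (hF a).add ih

theorem flat_sum_of : flat_sum_stmt := by
  classical
  intro m ι s F hF y v
  induction s using Finset.induction_on with
  | empty =>
    simp only [Finset.sum_empty, Finset.notMem_empty, false_imp_iff, implies_true, iff_true]
    exact ⟨1, one_pos, by ring⟩
  | insert a s ha ih =>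
    have : (fun x => ∑ i ∈ insert a s, F i x) = fun x => F a x + ∑ i ∈ s, F i x := by
      funext x
      rw [Finset.sum_insert ha]
    rw [this, flat_add_of (hF a) (FS_CV_sum s hF), ih, Finset.forall_mem_insert]

end Pool.Agent.helper83.SC
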