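import Pool.Agent.helper83.SC.Stmt

/-!
Module sc:LA3 of project MP_d2d7b9_gt : special mixed discriminants.
-/

open scoped Pointwise ContDiff
open MeasureTheory Set Filter Topology

namespace Pool.Agent.helper83.SC

theorem LA3_sum_perm {m : ℕ} (i₀ : Fin m) (g : Fin m → ℝ) :
    (m : ℝ) * ∑ σ : Equiv.Perm (Fin m), g (σ i₀) = (m.factorial : ℝ) * ∑ k, g k := by
  have h1 : ∀ i : Fin m, ∑ σ : Equiv.Perm (Fin m), g (σ i) = ∑ σ : Equiv.Perm (Fin m), g (σ i₀) := by
    intro i
    rw [← Equiv.sum_comp (Equiv.mulRight (Equiv.swap i i₀))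
      (fun σ : Equiv.Perm (Fin m) => g (σ i₀))]
    refine Finset.sum_congr rfl (fun σ _ => ?_)
    rw [Equiv.coe_mulRight, Equiv.Perm.mul_apply, Equiv.swap_apply_right]
  have h2 : ∑ i : Fin m, ∑ σ : Equiv.Perm (Fin m), g (σ i)
      = (m : ℝ) * ∑ σ : Equiv.Perm (Fin m), g (σ i₀) := by
    rw [Finset.sum_congr rfl (fun i _ => h1 i), Finset.sum_const, Finset.card_univ,
      Fintype.card_fin, nsmul_eq_mul]
  rw [← h2, Finset.sum_comm]
  have h3 : ∀ σ : Equiv.Perm (Fin m), ∑ i : Fin m, g (σ i) = ∑ k, g k :=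
    fun σ => Equiv.sum_comp σ g
  rw [Finset.sum_congr rfl (fun σ _ => h3 σ), Finset.sum_const, Finset.card_univ,
    Fintype.card_perm, Fintype.card_fin, nsmul_eq_mul]

theorem LA3_pair {m : ℕ} (i₀ : Fin m) (X G : Matrix (Fin m) (Fin m) ℝ) :
    (m : ℝ) * mD (fun j => if j = i₀ then X else G) = ∑ k, (G.updateRow k (X k)).det := by
  have h1 : ∀ σ : Equiv.Perm (Fin m),
      (Matrix.of fun i j => (if σ i = i₀ then X else G) i j).det
        = (G.updateRow (σ⁻¹ i₀) (X (σ⁻¹ i₀))).det := by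
    intro σ
    congr 1
    ext i j
    rw [Matrix.of_apply, Matrix.updateRow_apply]
    by_cases h : σ i = i₀
    · have h' : i = σ⁻¹ i₀ := by rw [← h]; simp
      rw [if_pos h, if_pos h', ← h']
    · have h' : i ≠ σ⁻¹ i₀ := by
        intro h''
        apply h
        rw [h'']; simp
      rw [if_neg h, if_neg h']
  unfold mD
  rw [Finset.sum_congr rfl (fun σ _ => h1 σ)]
  have h2 : ∑ σ : Equiv.Perm (Fin m), (G.updateRow (σ⁻¹ i₀) (X (σ⁻¹ i₀))).det
      = ∑ σ : Equiv.Perm (Fin m), (G.updateRow (σ i₀) (X (σ i₀))).det :=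
    Equiv.sum_comp (Equiv.inv (Equiv.Perm (Fin m)))
      (fun σ : Equiv.Perm (Fin m) => (G.updateRow (σ i₀) (X (σ i₀))).det)
  have h3 := LA3_sum_perm i₀ (fun k => (G.updateRow k (X k)).det)
  have hf : (m.factorial : ℝ) ≠ 0 := by positivity
  rw [h2]
  calc (m : ℝ) * (1 / (m.factorial : ℝ) *
        ∑ σ : Equiv.Perm (Fin m), (G.updateRow (σ i₀) (X (σ i₀))).det)
      = 1 / (m.factorial : ℝ) * ((m : ℝ) *
        ∑ σ : Equiv.Perm (Fin m), (G.updateRow (σ i₀) (X (σ i₀))).det) := by ring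
    _ = 1 / (m.factorial : ℝ) * ((m.factorial : ℝ) * ∑ k, (G.updateRow k (X k)).det) := by rw [h3]
    _ = ∑ k, (G.updateRow k (X k)).det := by field_simp

theorem mD_trace_of : mD_trace_stmt := by
  intro m i₀ X c
  have h := LA3_pair i₀ X (c • (1 : Matrix (Fin m) (Fin m) ℝ))
  have hm : (m : ℝ) ≠ 0 := by
    have : 0 < m := lt_of_le_of_lt (Nat.zero_le _) i₀.2
    exact_mod_cast this.ne'
  have h1 : ∀ k, ((c • (1 : Matrix (Fin m) (Fin m) ℝ)).updateRow k (X k)).det
      = c ^ (m - 1) * X k k := by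
    intro k
    rw [← Matrix.cramer_transpose_apply, Matrix.transpose_smul, Matrix.transpose_one,
      Matrix.cramer_smul, Matrix.cramer_one, Fintype.card_fin]
    simp
  rw [Finset.sum_congr rfl (fun k _ => h1 k), ← Finset.mul_sum] at h
  have h2 : X.trace = ∑ k, X k k := rfl
  rw [h2]
  field_simp
  linarith

theorem LA3_det_zero {m : ℕ} (N : Matrix (Fin m) (Fin m) ℝ) (l : Fin m → ℝ) (i j : Fin m)
    (hij : i ≠ j) (a b : ℝ) (hi : N i = a • l) (hj : N j = b • l) : N.det = 0 := by
  have e1 : N = N.updateRow i (a • l) := by rw [← hi, Matrix.updateRow_eq_self]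
  have e2 : (N.updateRow i l) = (N.updateRow i l).updateRow j (b • l) := by
    rw [← hj]
    ext p q
    rw [Matrix.updateRow_apply, Matrix.updateRow_apply]
    by_cases hp : p = j
    · rw [if_pos hp, if_neg (by rw [hp]; exact hij.symm), hp]
    · rw [if_neg hp, Matrix.updateRow_apply]
  rw [e1, Matrix.det_updateRow_smul, e2, Matrix.det_updateRow_smul]
  have : ((N.updateRow i l).updateRow j l).det = 0 := by
    refine Matrix.det_zero_of_row_eq hij ?_
    rw [Matrix.updateRow_ne hij, Matrix.updateRow_self, Matrix.updateRow_self]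
  rw [this]
  ring

theorem mD_rank_one_of : mD_rank_one_stmt := by
  classical
  intro m i₀ G l
  rw [LA3_pair]
  have h1 := (Matrix.detRowAlternating (n := Fin m) (R := ℝ)).toMultilinearMap.map_add_univ
    (Matrix.vecMulVec l l) G
  have h2 : ∀ s : Finset (Fin m),
      (Matrix.detRowAlternating (n := Fin m) (R := ℝ)).toMultilinearMap
        (s.piecewise (Matrix.vecMulVec l l) G)
      = Matrix.det (s.piecewise (Matrix.vecMulVec l l) G : Matrix (Fin m) (Fin m) ℝ) := fun s => rfl
  have h3 : (Matrix.detRowAlternating (n := Fin m) (R := ℝ)).toMultilinearMap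
      (Matrix.vecMulVec l l + G) = (G + Matrix.vecMulVec l l).det := by
    rw [add_comm]; rfl
  have h1' : (G + Matrix.vecMulVec l l).det = ∑ s : Finset (Fin m),
      Matrix.det (s.piecewise (Matrix.vecMulVec l l) G : Matrix (Fin m) (Fin m) ℝ) :=
    h3.symm.trans (h1.trans (Finset.sum_congr rfl (fun s _ => h2 s)))
  rw [h1']
  have h4 : ∑ s : Finset (Fin m),
      Matrix.det (s.piecewise (Matrix.vecMulVec l l) G : Matrix (Fin m) (Fin m) ℝ)
      = ∑ s ∈ insert ∅ (Finset.univ.image (fun k : Fin m => ({k} : Finset (Fin m)))),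
        Matrix.det (s.piecewise (Matrix.vecMulVec l l) G : Matrix (Fin m) (Fin m) ℝ) := by
    symm
    refine Finset.sum_subset (Finset.subset_univ _) (fun s _ hs => ?_)
    have hs1 : s ≠ ∅ := fun h => hs (by rw [h]; exact Finset.mem_insert_self _ _)
    have hs2 : ∀ k, s ≠ {k} := fun k h => hs (by
      rw [h]
      exact Finset.mem_insert_of_mem (Finset.mem_image_of_mem _ (Finset.mem_univ k)))
    obtain ⟨i, hi⟩ := Finset.nonempty_iff_ne_empty.mpr hs1
    obtain ⟨j, hj, hij⟩ : ∃ j ∈ s, j ≠ i := by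
      by_contra hcon
      push Not at hcon
      apply hs2 i
      ext p
      rw [Finset.mem_singleton]
      exact ⟨fun hp => hcon p hp, fun hp => by rw [hp]; exact hi⟩
    refine LA3_det_zero _ l j i hij (l j) (l i) ?_ ?_
    · rw [Finset.piecewise_eq_of_mem _ _ _ hj]
      ext q
      simp [Matrix.vecMulVec_apply]
    · rw [Finset.piecewise_eq_of_mem _ _ _ hi]
      ext q
      simp [Matrix.vecMulVec_apply]
  rw [h4, Finset.sum_insert, Finset.sum_image]
  · congr 1
    refine Finset.sum_congr rfl (fun k _ => ?_)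
    congr 1
    ext p q
    rw [Matrix.updateRow_apply]
    by_cases hp : p = k
    · rw [if_pos hp, Finset.piecewise_eq_of_mem _ _ _ (by simp [hp]), hp]
    · rw [if_neg hp, Finset.piecewise_eq_of_notMem _ _ _ (by simp [hp])]
  · intro a _ b _ hab
    exact Finset.singleton_injective hab
  · intro h
    obtain ⟨k, _, hk⟩ := Finset.mem_image.mp h
    exact Finset.singleton_ne_empty k hk

end Pool.Agent.helper83.SC
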