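import Pool.Agent.helper82.SC.SpecB

/-!
# sp: module CPX: boundary darts of the square split their sector
-/

namespace Pool.Agent.helper82.SC

open Relation Filter Topology

lemma PX_third (U : Finset V) (f : F) (d : Fin 3) (h : ∃ e, S f e ∈ U) (h1 : S f d ∉ U)
    (h2 : S f (d + 1) ∉ U) : S f (d + 2) ∈ U := by
  obtain ⟨e, he⟩ := h
  have h3 : ∀ d e : Fin 3, e = d ∨ e = d + 1 ∨ e = d + 2 := by decide
  rcases h3 d e with h3 | h3 | h3
  · exact absurd (h3 ▸ he) h1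
  · exact absurd (h3 ▸ he) h2
  · exact h3 ▸ he

lemma PX_sec0 (n : ℕ) (v : V) : secsq n v = 0 ↔
    v.2 < 0 ∨ (0 ≤ v.2 ∧ v.2 ≤ top n ∧ 0 ≤ 2 * v.1 + v.2) := by
  unfold secsq
  split_ifs with h1 h2 h3
  · simp [h1]
  · simp only [Fin.reduceEq, false_iff]; omega
  · simp only [Fin.reduceEq, false_iff]; omega
  · simp only [true_iff]; omega

lemma PX_sec1 (n : ℕ) (v : V) : secsq n v = 1 ↔ 0 ≤ v.2 ∧ (top n : ℤ) < v.2 := by
  unfold secsq
  split_ifs with h1 h2 h3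
  · simp only [Fin.reduceEq, false_iff]; omega
  · simp only [true_iff]; omega
  · simp only [Fin.reduceEq, false_iff]; omega
  · simp only [Fin.reduceEq, false_iff]; omega

lemma PX_sec2 (n : ℕ) (v : V) : secsq n v = 2 ↔
    0 ≤ v.2 ∧ v.2 ≤ top n ∧ 2 * v.1 + v.2 < 0 := by
  unfold secsq
  split_ifs with h1 h2 h3
  · simp only [Fin.reduceEq, false_iff]; omega
  · simp only [Fin.reduceEq, false_iff]; omega
  · simp only [true_iff]; omega
  · simp only [Fin.reduceEq, false_iff]; omega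

/-- counterclockwise position on the exterior boundary of a sector -/
def PX_pos (n : ℕ) (j : Fin 3) (v : V) : ℤ :=
  if j = 0 then (if v.2 < 0 then v.1 else n + 2 + v.2) else if j = 1 then -v.1 else -v.2

/-- boundary darts of the sector `j` -/
def PX_B (n : ℕ) (j : Fin 3) (x : Dart) : Prop :=
  S x.1 (x.2 + 2) ∈ Usq n ∧ S x.1 x.2 ∉ Usq n ∧ S x.1 (x.2 + 1) ∉ Usq n ∧
    secsq n (S x.1 x.2) = j ∧ secsq n (S x.1 (x.2 + 1)) = j

lemma PX_sites (i k : ℤ) :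
    S ((i, k), false) 0 = (i, k) ∧ S ((i, k), false) 1 = (i + 1, k) ∧
    S ((i, k), false) 2 = (i, k + 1) ∧ S ((i, k), true) 0 = (i + 1, k + 1) ∧
    S ((i, k), true) 1 = (i, k + 1) ∧ S ((i, k), true) 2 = (i + 1, k) := by
  simp [S]

/-- classification of the boundary darts, sector `1` -/
lemma PX_c1 (n : ℕ) (x : Dart) (h : PX_B n 1 x) :
    ∃ i : ℤ, x = (((i, (top n : ℤ)), true), 0) ∧ 0 ≤ 2 * (i + 1) + top n ∧
      2 * (i + 1) + top n ≤ 2 * n := by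
  obtain ⟨⟨⟨i, k⟩, b⟩, d⟩ := x
  obtain ⟨s1, s2, s3, s4, s5, s6⟩ := PX_sites i k
  unfold PX_B at h
  rw [PX_sec1, PX_sec1, mem_Usq, mem_Usq, mem_Usq] at h
  cases b <;> fin_cases d <;>
    simp only [Fin.zero_eta, Fin.isValue, Fin.mk_one, Fin.reduceFinMk, zero_add, Fin.reduceAdd,
      s1, s2, s3, s4, s5, s6] at h <;>
    first
      | (exfalso; omega)
      | (have : k = top n := by omega
         subst this
         exact ⟨i, rfl, by omega, by omega⟩)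

/-- classification of the boundary darts, sector `2` -/
lemma PX_c2 (n : ℕ) (x : Dart) (h : PX_B n 2 x) : ∃ i k : ℤ,
    ((x = (((i, k), false), 2) ∧ 2 * i + k = -2) ∨ (x = (((i, k), true), 1) ∧ 2 * i + k = -3)) ∧
      0 ≤ k ∧ k + 1 ≤ top n := by
  obtain ⟨⟨⟨i, k⟩, b⟩, d⟩ := x
  obtain ⟨s1, s2, s3, s4, s5, s6⟩ := PX_sites i k
  unfold PX_B at h
  rw [PX_sec2, PX_sec2, mem_Usq, mem_Usq, mem_Usq] at h
  cases b <;> fin_cases d <;>
    simp only [Fin.zero_eta, Fin.isValue, Fin.mk_one, Fin.reduceFinMk, zero_add, Fin.reduceAdd,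
      s1, s2, s3, s4, s5, s6] at h <;>
    first
      | (exfalso; omega)
      | (exact ⟨i, k, Or.inl ⟨rfl, by omega⟩, by omega, by omega⟩)
      | (exact ⟨i, k, Or.inr ⟨rfl, by omega⟩, by omega, by omega⟩)

/-- classification of the boundary darts, sector `0` -/
lemma PX_c0 (n : ℕ) (x : Dart) (h : PX_B n 0 x) :
    (∃ i : ℤ, x = (((i, -1), false), 0) ∧ 0 ≤ i ∧ i ≤ n) ∨ x = zD n ∨
    (∃ i k : ℤ, ((x = (((i, k), false), 1) ∧ 2 * i + k = 2 * n) ∨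
      (x = (((i, k), true), 2) ∧ 2 * i + k = 2 * n - 1)) ∧ 0 ≤ k ∧ k + 1 ≤ top n) := by
  obtain ⟨⟨⟨i, k⟩, b⟩, d⟩ := x
  obtain ⟨s1, s2, s3, s4, s5, s6⟩ := PX_sites i k
  unfold PX_B at h
  rw [PX_sec0, PX_sec0, mem_Usq, mem_Usq, mem_Usq] at h
  cases b <;> fin_cases d <;>
    simp only [Fin.zero_eta, Fin.isValue, Fin.mk_one, Fin.reduceFinMk, zero_add, Fin.reduceAdd,
      s1, s2, s3, s4, s5, s6] at h
  · have : k = -1 := by omega
    subst this
    exact Or.inl ⟨i, rfl, by omega, by omega⟩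
  · exact Or.inr (Or.inr ⟨i, k, Or.inl ⟨rfl, by omega⟩, by omega, by omega⟩)
  · exfalso; omega
  · exfalso; omega
  · exfalso; omega
  · by_cases hk : k < 0
    · right; left
      have h1 : k = -1 := by omega
      have h2 : i = n := by omega
      subst h1
      subst h2
      rfl
    · exact Or.inr (Or.inr ⟨i, k, Or.inr ⟨rfl, by omega⟩, by omega, by omega⟩)

/-- positions of the end points of a boundary dart, sector `0` -/
lemma PX_p0 (n : ℕ) (x : Dart) (h : PX_B n 0 x) :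
    PX_pos n 0 (S x.1 (x.2 + 1)) = PX_pos n 0 (S x.1 x.2) + 1 ∧ 0 ≤ PX_pos n 0 (S x.1 x.2) ∧
      PX_pos n 0 (S x.1 x.2) < n + 2 + top n ∧
      ∀ y : Dart, PX_B n 0 y → PX_pos n 0 (S y.1 y.2) = PX_pos n 0 (S x.1 x.2) → y = x := by
  have key : ∀ y : Dart, PX_B n 0 y → ∃ i k : ℤ,
      (y = (((i, k), false), 0) ∧ k = -1 ∧ 0 ≤ i ∧ i ≤ n ∧ PX_pos n 0 (S y.1 y.2) = i ∧
        PX_pos n 0 (S y.1 (y.2 + 1)) = i + 1) ∨
      (y = (((i, k), true), 2) ∧ k = -1 ∧ i = n ∧ PX_pos n 0 (S y.1 y.2) = n + 1 ∧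
        PX_pos n 0 (S y.1 (y.2 + 1)) = n + 2) ∨
      (y = (((i, k), false), 1) ∧ 2 * i + k = 2 * n ∧ 0 ≤ k ∧ k + 1 ≤ top n ∧
        PX_pos n 0 (S y.1 y.2) = n + 2 + k ∧ PX_pos n 0 (S y.1 (y.2 + 1)) = n + 3 + k) ∨
      (y = (((i, k), true), 2) ∧ 2 * i + k = 2 * n - 1 ∧ 0 ≤ k ∧ k + 1 ≤ top n ∧
        PX_pos n 0 (S y.1 y.2) = n + 2 + k ∧ PX_pos n 0 (S y.1 (y.2 + 1)) = n + 3 + k) := by
    intro y hy
    rcases PX_c0 n y hy with ⟨i, rfl, h1, h2⟩ | rfl | ⟨i, k, ⟨rfl, h1⟩ | ⟨rfl, h1⟩, h2, h3⟩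
    · refine ⟨i, -1, Or.inl ⟨rfl, rfl, h1, h2, ?_, ?_⟩⟩
      · show PX_pos n 0 (S ((i, -1), false) 0) = i
        rw [(PX_sites i (-1)).1]
        simp [PX_pos]
      · show PX_pos n 0 (S ((i, -1), false) 1) = i + 1
        rw [(PX_sites i (-1)).2.1]
        simp [PX_pos]
    · refine ⟨n, -1, Or.inr (Or.inl ⟨rfl, rfl, rfl, ?_, ?_⟩)⟩
      · show PX_pos n 0 (S (((n : ℤ), -1), true) 2) = n + 1
        rw [(PX_sites n (-1)).2.2.2.2.2]
        simp [PX_pos]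
      · show PX_pos n 0 (S (((n : ℤ), -1), true) 0) = n + 2
        rw [(PX_sites n (-1)).2.2.2.1]
        simp [PX_pos]
    · refine ⟨i, k, Or.inr (Or.inr (Or.inl ⟨rfl, h1, h2, h3, ?_, ?_⟩))⟩
      · show PX_pos n 0 (S ((i, k), false) 1) = n + 2 + k
        rw [(PX_sites i k).2.1]
        simp only [PX_pos, if_true]
        rw [if_neg (by omega)]
      · show PX_pos n 0 (S ((i, k), false) 2) = n + 3 + k
        rw [(PX_sites i k).2.2.1]
        simp only [PX_pos, if_true]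
        rw [if_neg (by omega)]
        ring
    · refine ⟨i, k, Or.inr (Or.inr (Or.inr ⟨rfl, h1, h2, h3, ?_, ?_⟩))⟩
      · show PX_pos n 0 (S ((i, k), true) 2) = n + 2 + k
        rw [(PX_sites i k).2.2.2.2.2]
        simp only [PX_pos, if_true]
        rw [if_neg (by omega)]
      · show PX_pos n 0 (S ((i, k), true) 0) = n + 3 + k
        rw [(PX_sites i k).2.2.2.1]
        simp only [PX_pos, if_true]
        rw [if_neg (by omega)]
        ring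
  obtain ⟨i, k, hx⟩ := key x h
  refine ⟨by omega, by omega, by omega, ?_⟩
  intro y hy hpos
  obtain ⟨i', k', hy'⟩ := key y hy
  rcases hx with hx | hx | hx | hx <;> rcases hy' with hy' | hy' | hy' | hy' <;>
    first
      | (exfalso; omega)
      | (rw [hx.1, hy'.1]
         have e1 : i' = i := by omega
         have e2 : k' = k := by omega
         rw [e1, e2])

/-- positions of the end points of a boundary dart, sector `1` -/
lemma PX_p1 (n : ℕ) (x : Dart) (h : PX_B n 1 x) :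
    PX_pos n 1 (S x.1 (x.2 + 1)) = PX_pos n 1 (S x.1 x.2) + 1 ∧
      2 * PX_pos n 1 (S x.1 x.2) ≤ top n ∧ (top n : ℤ) - 2 * n ≤ 2 * PX_pos n 1 (S x.1 x.2) ∧
      ∀ y : Dart, PX_B n 1 y → PX_pos n 1 (S y.1 y.2) = PX_pos n 1 (S x.1 x.2) → y = x := by
  have key : ∀ y : Dart, PX_B n 1 y → ∃ i : ℤ, y = (((i, (top n : ℤ)), true), 0) ∧
      0 ≤ 2 * (i + 1) + top n ∧ 2 * (i + 1) + top n ≤ 2 * n ∧
      PX_pos n 1 (S y.1 y.2) = -(i + 1) ∧ PX_pos n 1 (S y.1 (y.2 + 1)) = -i := by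
    intro y hy
    obtain ⟨i, rfl, h1, h2⟩ := PX_c1 n y hy
    refine ⟨i, rfl, h1, h2, ?_, ?_⟩
    · show PX_pos n 1 (S ((i, (top n : ℤ)), true) 0) = -(i + 1)
      rw [(PX_sites i (top n)).2.2.2.1]
      simp [PX_pos]
    · show PX_pos n 1 (S ((i, (top n : ℤ)), true) 1) = -i
      rw [(PX_sites i (top n)).2.2.2.2.1]
      simp [PX_pos]
  obtain ⟨i, hx⟩ := key x h
  refine ⟨by omega, by omega, by omega, ?_⟩
  intro y hy hpos
  obtain ⟨i', hy'⟩ := key y hy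
  rw [hx.1, hy'.1]
  have e1 : i' = i := by omega
  rw [e1]

/-- positions of the end points of a boundary dart, sector `2` -/
lemma PX_p2 (n : ℕ) (x : Dart) (h : PX_B n 2 x) :
    PX_pos n 2 (S x.1 (x.2 + 1)) = PX_pos n 2 (S x.1 x.2) + 1 ∧
      PX_pos n 2 (S x.1 x.2) < 0 ∧ -(top n : ℤ) ≤ PX_pos n 2 (S x.1 x.2) ∧
      ∀ y : Dart, PX_B n 2 y → PX_pos n 2 (S y.1 y.2) = PX_pos n 2 (S x.1 x.2) → y = x := by
  have key : ∀ y : Dart, PX_B n 2 y → ∃ i k : ℤ,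
      ((y = (((i, k), false), 2) ∧ 2 * i + k = -2) ∨ (y = (((i, k), true), 1) ∧ 2 * i + k = -3)) ∧
      0 ≤ k ∧ k + 1 ≤ top n ∧
      PX_pos n 2 (S y.1 y.2) = -(k + 1) ∧ PX_pos n 2 (S y.1 (y.2 + 1)) = -k := by
    intro y hy
    obtain ⟨i, k, ⟨rfl, h1⟩ | ⟨rfl, h1⟩, h2, h3⟩ := PX_c2 n y hy
    · refine ⟨i, k, Or.inl ⟨rfl, h1⟩, h2, h3, ?_, ?_⟩
      · show PX_pos n 2 (S ((i, k), false) 2) = -(k + 1)
        rw [(PX_sites i k).2.2.1]
        simp [PX_pos]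
      · show PX_pos n 2 (S ((i, k), false) 0) = -k
        rw [(PX_sites i k).1]
        simp [PX_pos]
    · refine ⟨i, k, Or.inr ⟨rfl, h1⟩, h2, h3, ?_, ?_⟩
      · show PX_pos n 2 (S ((i, k), true) 1) = -(k + 1)
        rw [(PX_sites i k).2.2.2.2.1]
        simp [PX_pos]
      · show PX_pos n 2 (S ((i, k), true) 2) = -k
        rw [(PX_sites i k).2.2.2.2.2]
        simp [PX_pos]
  obtain ⟨i, k, hx⟩ := key x h
  refine ⟨by omega, by omega, by omega, ?_⟩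
  intro y hy hpos
  obtain ⟨i', k', hy', hy''⟩ := key y hy
  obtain ⟨hx', hx''⟩ := hx
  have e2 : k' = k := by omega
  rcases hx' with hx' | hx' <;> rcases hy' with hy' | hy' <;>
    first
      | (exfalso; omega)
      | (rw [hx'.1, hy'.1]
         have e1 : i' = i := by omega
         rw [e1, e2])

lemma PX_asq (n : ℕ) :
    PX_pos n 0 (S (asq n 1).1 ((asq n 1).2 + 1)) = 0 ∧
    PX_pos n 0 (S (asq n 2).1 (asq n 2).2) = n + 2 + top n ∧
    PX_pos n 1 (S (asq n 2).1 ((asq n 2).2 + 1)) = -((2 * (n : ℤ) - top n) / 2) ∧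
    PX_pos n 1 (S (asq n 0).1 (asq n 0).2) = (top n : ℤ) / 2 + 1 ∧
    PX_pos n 2 (S (asq n 0).1 ((asq n 0).2 + 1)) = -(top n : ℤ) ∧
    PX_pos n 2 (S (asq n 1).1 (asq n 1).2) = 0 := by
  refine ⟨?_, ?_, ?_, ?_, ?_, ?_⟩
  · show PX_pos n 0 (S ((-1, -1), true) 2) = 0
    rw [(PX_sites (-1) (-1)).2.2.2.2.2]
    simp [PX_pos]
  · show PX_pos n 0 (S (((2 * (n : ℤ) - top n) / 2, (top n : ℤ)), false) 1) = n + 2 + top n
    rw [(PX_sites _ _).2.1]
    simp only [PX_pos, if_true]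
    rw [if_neg (by omega)]
  · show PX_pos n 1 (S (((2 * (n : ℤ) - top n) / 2, (top n : ℤ)), false) 2) = _
    rw [(PX_sites _ _).2.2.1]
    simp [PX_pos]
  · show PX_pos n 1 (S ((-((top n : ℤ) / 2) - 1, (top n : ℤ)), false) 2) = _
    rw [(PX_sites _ _).2.2.1]
    simp [PX_pos]
    ring
  · show PX_pos n 2 (S ((-((top n : ℤ) / 2) - 1, (top n : ℤ)), false) 0) = _
    rw [(PX_sites _ _).1]
    simp [PX_pos]
  · show PX_pos n 2 (S ((-1, -1), true) 1) = 0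
    rw [(PX_sites (-1) (-1)).2.2.2.2.1]
    simp [PX_pos]

/-- PX -/
theorem PX : PX_stmt := by
  intro n D _ hD j p hp hp1 hp2 hs1 hs2
  obtain ⟨hU, hsec, ha⟩ := hD
  have hB : ∀ x : Dart, D.FU x.1 → S x.1 x.2 ∉ D.U → S x.1 (x.2 + 1) ∉ D.U →
      D.sec (S x.1 x.2) = j → D.sec (S x.1 (x.2 + 1)) = j → PX_B n j x := by
    intro x h0 h1 h2 h3 h4
    have h5 := PX_third D.U x.1 x.2 h0 h1 h2
    rw [hU] at h1 h2 h5
    rw [hsec] at h3 h4
    exact ⟨h5, h1, h2, h3, h4⟩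
  have hpB := hB p hp hp1 hp2 hs1 hs2
  -- common properties of the positions
  have key : (∀ x : Dart, PX_B n j x →
      PX_pos n j (S x.1 (x.2 + 1)) = PX_pos n j (S x.1 x.2) + 1) ∧
      (∀ x : Dart, PX_B n j x → PX_pos n j (S x.1 x.2) = PX_pos n j (S p.1 p.2) → x = p) ∧
      PX_pos n j (S (asq n (j + 1)).1 ((asq n (j + 1)).2 + 1)) ≤ PX_pos n j (S p.1 p.2) ∧
      PX_pos n j (S p.1 p.2) < PX_pos n j (S (asq n (j + 2)).1 (asq n (j + 2)).2) := by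
    obtain ⟨a1, a2, a3, a4, a5, a6⟩ := PX_asq n
    fin_cases j
    · obtain ⟨-, q2, q3, q4⟩ := PX_p0 n p hpB
      refine ⟨fun x hx => (PX_p0 n x hx).1, q4, ?_, ?_⟩
      · show PX_pos n 0 (S (asq n 1).1 ((asq n 1).2 + 1)) ≤ PX_pos n 0 (S p.1 p.2)
        rw [a1]; exact q2
      · show PX_pos n 0 (S p.1 p.2) < PX_pos n 0 (S (asq n 2).1 (asq n 2).2)
        rw [a2]; exact q3
    · obtain ⟨-, q2, q3, q4⟩ := PX_p1 n p hpB
      refine ⟨fun x hx => (PX_p1 n x hx).1, q4, ?_, ?_⟩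
      · show PX_pos n 1 (S (asq n 2).1 ((asq n 2).2 + 1)) ≤ PX_pos n 1 (S p.1 p.2)
        rw [a3]; omega
      · show PX_pos n 1 (S p.1 p.2) < PX_pos n 1 (S (asq n 0).1 (asq n 0).2)
        rw [a4]; omega
    · obtain ⟨-, q2, q3, q4⟩ := PX_p2 n p hpB
      refine ⟨fun x hx => (PX_p2 n x hx).1, q4, ?_, ?_⟩
      · show PX_pos n 2 (S (asq n 0).1 ((asq n 0).2 + 1)) ≤ PX_pos n 2 (S p.1 p.2)
        rw [a5]; exact q3
      · show PX_pos n 2 (S p.1 p.2) < PX_pos n 2 (S (asq n 1).1 (asq n 1).2)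
        rw [a6]; exact q2
  obtain ⟨k1, k2, k3, k4⟩ := key
  refine ⟨fun v => if PX_pos n j v ≤ PX_pos n j (S p.1 p.2) then 1 else 0, hp, hp1, hp2, hs1,
    hs2, ?_, ?_, ?_, ?_⟩
  · intro x h0 h1 h2 h3 h4
    have hx := hB x h0 h1 h2 h3 h4
    have e1 := k1 x hx
    show (if PX_pos n j (S x.1 x.2) ≤ PX_pos n j (S p.1 p.2) then (1 : ZMod 2) else 0) +
      (if PX_pos n j (S x.1 (x.2 + 1)) ≤ PX_pos n j (S p.1 p.2) then (1 : ZMod 2) else 0) =
      if x = p then 1 else 0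
    rw [e1]
    rcases lt_trichotomy (PX_pos n j (S x.1 x.2)) (PX_pos n j (S p.1 p.2)) with h | h | h
    · have hne : x ≠ p := by
        intro hxp
        rw [hxp] at h
        exact lt_irrefl _ h
      rw [if_pos h.le, if_pos (by omega), if_neg hne]
      decide
    · rw [if_pos h.le, if_neg (by omega), if_pos (k2 x hx h)]
      decide
    · have hne : x ≠ p := by
        intro hxp
        rw [hxp] at h
        exact lt_irrefl _ h
      rw [if_neg (by omega), if_neg (by omega), if_neg hne]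
      decide
  · show (if PX_pos n j (S p.1 p.2) ≤ PX_pos n j (S p.1 p.2) then (1 : ZMod 2) else 0) = 1
    rw [if_pos le_rfl]
  · rw [ha]
    show (if _ ≤ _ then (1 : ZMod 2) else 0) = 1
    rw [if_pos k3]
  · rw [ha]
    show (if _ ≤ _ then (1 : ZMod 2) else 0) = 0
    rw [if_neg (not_le.2 k4)]

end Pool.Agent.helper82.SC
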