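import Pool.Agent.helper83.SC.Stmt

/-!
Module sc:TC3 of project MP_d2d7b9_gt : extreme directions in a chart.
-/

open scoped Pointwise ContDiff
open MeasureTheory Set Filter Topology

namespace Pool.Agent.helper83.SC

/-- the linear part of the chart -/
noncomputable def TC3_L {m : ℕ} (b : OrthonormalBasis (Fin (m + 1)) ℝ (E (m + 1))) :
    E m →ₗ[ℝ] E (m + 1) where
  toFun v := ∑ i : Fin m, v i • b i.castSucc
  map_add' v w := by
    rw [← Finset.sum_add_distrib]
    exact Finset.sum_congr rfl (fun i _ => by rw [PiLp.add_apply, add_smul])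
  map_smul' c v := by
    rw [RingHom.id_apply, Finset.smul_sum]
    exact Finset.sum_congr rfl (fun i _ => by rw [PiLp.smul_apply, smul_eq_mul, mul_smul])

theorem TC3_L_apply {m : ℕ} (b : OrthonormalBasis (Fin (m + 1)) ℝ (E (m + 1))) (v : E m) :
    TC3_L b v = ∑ i : Fin m, v i • b i.castSucc := rfl

theorem TC3_emb {m : ℕ} (b : OrthonormalBasis (Fin (m + 1)) ℝ (E (m + 1))) (y : E m) :
    emb b y = TC3_L b y + b (Fin.last m) := rfl

/-- inner products with the basis vectors -/
theorem TC3_inner_L {m : ℕ} (b : OrthonormalBasis (Fin (m + 1)) ℝ (E (m + 1))) (v : E m)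
    (j : Fin m) : inner ℝ (b j.castSucc) (TC3_L b v) = v j := by
  rw [TC3_L_apply, inner_sum]
  rw [Finset.sum_eq_single j]
  · rw [inner_smul_right, real_inner_self_eq_norm_sq, b.norm_eq_one]
    ring
  · intro i _ hij
    rw [inner_smul_right, b.inner_eq_ite, if_neg, mul_zero]
    intro h
    exact hij (Fin.castSucc_injective m h).symm
  · intro h
    exact absurd (Finset.mem_univ j) h

theorem TC3_inner_last {m : ℕ} (b : OrthonormalBasis (Fin (m + 1)) ℝ (E (m + 1))) (v : E m) :
    inner ℝ (b (Fin.last m)) (TC3_L b v) = 0 := by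
  rw [TC3_L_apply, inner_sum]
  refine Finset.sum_eq_zero (fun i _ => ?_)
  rw [inner_smul_right, b.inner_eq_ite, if_neg, mul_zero]
  exact (Fin.castSucc_lt_last i).ne'

theorem TC3_inner_emb {m : ℕ} (b : OrthonormalBasis (Fin (m + 1)) ℝ (E (m + 1))) (y : E m) :
    inner ℝ (b (Fin.last m)) (emb b y) = 1 := by
  rw [TC3_emb, inner_add_right, TC3_inner_last, real_inner_self_eq_norm_sq, b.norm_eq_one]
  ring

theorem TC3_L_inj {m : ℕ} (b : OrthonormalBasis (Fin (m + 1)) ℝ (E (m + 1))) :
    Function.Injective (TC3_L b) := by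
  intro v w h
  ext j
  rw [← TC3_inner_L b v j, ← TC3_inner_L b w j, h]

theorem TC3_range {m : ℕ} (b : OrthonormalBasis (Fin (m + 1)) ℝ (E (m + 1))) (V : E (m + 1))
    (hV : inner ℝ (b (Fin.last m)) V = 0) : ∃ v, TC3_L b v = V := by
  refine ⟨WithLp.toLp 2 fun i : Fin m => inner ℝ (b i.castSucc) V, ?_⟩
  have h := b.sum_repr' V
  rw [Fin.sum_univ_castSucc, hV, zero_smul, add_zero] at h
  rw [TC3_L_apply]
  exact h

theorem TC3_emb_ne {m : ℕ} (b : OrthonormalBasis (Fin (m + 1)) ℝ (E (m + 1))) (y : E m) :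
    emb b y ≠ 0 := by
  intro h
  have := TC3_inner_emb b y
  rw [h, inner_zero_right] at this
  norm_num at this

theorem TC3_emb_add {m : ℕ} (b : OrthonormalBasis (Fin (m + 1)) ℝ (E (m + 1))) (y v : E m) :
    emb b (y + v) = emb b y + TC3_L b v := by
  rw [TC3_emb, TC3_emb, map_add]
  abel

theorem TC3_emb_sub {m : ℕ} (b : OrthonormalBasis (Fin (m + 1)) ℝ (E (m + 1))) (y v : E m) :
    emb b (y - v) = emb b y - TC3_L b v := by
  rw [TC3_emb, TC3_emb, map_sub]
  abel

/-- flatness of the chart -/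
theorem TC3_flat_chart {m : ℕ} (b : OrthonormalBasis (Fin (m + 1)) ℝ (E (m + 1)))
    (K : Set (E (m + 1))) (y v : E m) :
    FlatAt (chart b K) y v ↔ FlatAt (hE K) (emb b y) (TC3_L b v) := by
  unfold FlatAt chart
  constructor
  · rintro ⟨ε, h1, h2⟩
    refine ⟨ε, h1, ?_⟩
    rw [TC3_emb_add, TC3_emb_sub, map_smul] at h2
    exact h2
  · rintro ⟨ε, h1, h2⟩
    refine ⟨ε, h1, ?_⟩
    rw [TC3_emb_add, TC3_emb_sub, map_smul]
    exact h2

/-- flatness of a homogeneous function does not depend on the length of the base point -/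
theorem TC3_flat_scale {n : ℕ} {h : E n → ℝ} (hh : ∀ t : ℝ, 0 ≤ t → ∀ v, h (t • v) = t * h v)
    {s : ℝ} (hs : 0 < s) (x v : E n) : FlatAt h (s • x) v ↔ FlatAt h x v := by
  have key : ∀ ε : ℝ, h (s • x + (s * ε) • v) + h (s • x - (s * ε) • v)
      = s * (h (x + ε • v) + h (x - ε • v)) := by
    intro ε
    have e1 : s • x + (s * ε) • v = s • (x + ε • v) := by module
    have e2 : s • x - (s * ε) • v = s • (x - ε • v) := by module
    rw [e1, e2, hh s hs.le, hh s hs.le]
    ring
  constructor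
  · rintro ⟨ε, h1, h2⟩
    refine ⟨ε / s, div_pos h1 hs, ?_⟩
    have h3 := key (ε / s)
    rw [mul_div_cancel₀ _ hs.ne', h2, hh s hs.le] at h3
    have h4 : s * (h (x + (ε / s) • v) + h (x - (ε / s) • v)) = s * (2 * h x) := by
      rw [← h3]; ring
    exact mul_left_cancel₀ hs.ne' h4
  · rintro ⟨ε, h1, h2⟩
    refine ⟨s * ε, mul_pos hs h1, ?_⟩
    rw [key, h2, hh s hs.le]
    ring

/-- the base point is a flat direction -/
theorem TC3_flat_self {n : ℕ} {h : E n → ℝ} (hh : ∀ t : ℝ, 0 ≤ t → ∀ v, h (t • v) = t * h v)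
    (x : E n) : FlatAt h x x := by
  refine ⟨1, one_pos, ?_⟩
  have e1 : x + (1 : ℝ) • x = (2 : ℝ) • x := by module
  have e2 : x - (1 : ℝ) • x = (0 : ℝ) • x := by module
  rw [e1, e2, hh 2 (by norm_num), hh 0 (le_refl _)]
  ring

theorem mem_extreme_chart_of (h1 : mem_extreme_iff_stmt) (h2 : hE_facts_stmt)
    (h3 : flat_submodule_stmt) : mem_extreme_chart_stmt := by
  intro m b C hC y
  set x := emb b y with hx
  have hx0 : x ≠ 0 := TC3_emb_ne b y
  have hnx : 0 < ‖x‖ := norm_pos_iff.mpr hx0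
  have hu : ‖x‖⁻¹ • x ∈ Metric.sphere (0 : E (m + 1)) 1 := by
    rw [mem_sphere_zero_iff_norm, norm_smul, norm_inv, norm_norm, inv_mul_cancel₀ hnx.ne']
  have hhom : ∀ i, ∀ t : ℝ, 0 ≤ t → ∀ v, hE (C i) (t • v) = t * hE (C i) v :=
    fun i => (h2 (hC i) (hC i)).2.2.1
  -- the flat directions at `x`
  have hS : ∀ i, ∃ S : Submodule ℝ (E (m + 1)), ∀ v, v ∈ S ↔ FlatAt (hE (C i)) x v :=
    fun i => h3 (h2 (hC i) (hC i)).2.1 x
  have hscale : ∀ i v, FlatAt (hE (C i)) (‖x‖⁻¹ • x) v ↔ FlatAt (hE (C i)) x v :=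
    fun i v => TC3_flat_scale (hhom i) (inv_pos.mpr hnx) x v
  rw [h1 hC hu]
  constructor
  · intro h I W hW
    have hflat : ∀ v ∈ (W.map (TC3_L b)) ⊔ Submodule.span ℝ {x}, ∀ i ∈ I,
        FlatAt (hE (C i)) (‖x‖⁻¹ • x) v := by
      intro v hv i hi
      rw [hscale]
      obtain ⟨S, hSi⟩ := hS i
      rw [← hSi]
      have hle : (W.map (TC3_L b)) ⊔ Submodule.span ℝ {x} ≤ S := by
        refine sup_le ?_ ?_
        · rintro _ ⟨w, hw, rfl⟩
          rw [hSi]
          exact (TC3_flat_chart b (C i) y w).mp (hW w hw i hi)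
        · rw [Submodule.span_singleton_le_iff_mem, hSi]
          exact TC3_flat_self (hhom i) x
      exact hle hv
    have h4 := h I _ hflat
    have h5 : Module.finrank ℝ ↥((W.map (TC3_L b)) ⊔ Submodule.span ℝ {x})
        = Module.finrank ℝ W + 1 := by
      have h6 := Submodule.finrank_sup_add_finrank_inf_eq (W.map (TC3_L b))
        (Submodule.span ℝ {x})
      have h7 : (W.map (TC3_L b)) ⊓ Submodule.span ℝ {x} = ⊥ := by
        rw [Submodule.eq_bot_iff]
        rintro z ⟨hz1, hz2⟩
        obtain ⟨w, _, rfl⟩ := hz1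
        obtain ⟨c, hc⟩ := Submodule.mem_span_singleton.mp hz2
        have h8 : inner ℝ (b (Fin.last m)) (c • x) = c := by
          rw [inner_smul_right, hx, TC3_inner_emb, mul_one]
        rw [hc, TC3_inner_last] at h8
        rw [← hc, ← h8, zero_smul]
      rw [h7, finrank_bot, add_zero, finrank_span_singleton hx0] at h6
      rw [h6]
      congr 1
      exact (LinearEquiv.finrank_eq (Submodule.equivMapOfInjective (TC3_L b) (TC3_L_inj b) W)).symm
    rw [h5] at h4
    omega
  · intro h I W hW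
    set T := (W ⊔ Submodule.span ℝ {x}).comap (TC3_L b) with hT
    have hflat : ∀ v ∈ T, ∀ i ∈ I, FlatAt (chart b (C i)) y v := by
      intro v hv i hi
      rw [TC3_flat_chart]
      obtain ⟨S, hSi⟩ := hS i
      rw [← hx, ← hSi]
      have hle : W ⊔ Submodule.span ℝ {x} ≤ S := by
        refine sup_le ?_ ?_
        · intro w hw
          rw [hSi, ← hscale]
          exact hW w hw i hi
        · rw [Submodule.span_singleton_le_iff_mem, hSi]
          exact TC3_flat_self (hhom i) x
      exact hle hv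
    have h4 := h I T hflat
    have h5 : W ≤ (T.map (TC3_L b)) ⊔ Submodule.span ℝ {x} := by
      intro V hV
      obtain ⟨v, hv⟩ := TC3_range b (V - (inner ℝ (b (Fin.last m)) V : ℝ) • x) (by
        rw [inner_sub_right, inner_smul_right, hx, TC3_inner_emb, mul_one, sub_self])
      have hvT : v ∈ T := by
        rw [hT, Submodule.mem_comap, hv]
        exact Submodule.sub_mem _ (Submodule.mem_sup_left hV)
          (Submodule.mem_sup_right (Submodule.smul_mem _ _ (Submodule.mem_span_singleton_self x)))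
      have e : V = TC3_L b v + (inner ℝ (b (Fin.last m)) V : ℝ) • x := by
        rw [hv]; abel
      rw [e]
      exact Submodule.add_mem_sup (Submodule.mem_map_of_mem hvT)
        (Submodule.smul_mem _ _ (Submodule.mem_span_singleton_self x))
    have h6 := Submodule.finrank_mono h5
    have h7 := Submodule.finrank_add_le_finrank_add_finrank (T.map (TC3_L b))
      (Submodule.span ℝ {x})
    have h8 := Submodule.finrank_map_le (TC3_L b) T
    rw [finrank_span_singleton hx0] at h7
    omega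

end Pool.Agent.helper83.SC
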